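import Mathlib

/-!
# Project IW (helper662): definitions

Lattice sites are `Pt d = Fin d → ℤ`.  A configuration is a list of sites.  `jmp l` is the multiset of
the lengths (at least two) of the jumps of `l` (consecutive entries which are not neighbours).
`Reach a B w l l'` is a quantitative "`l` can be recovered from `l'` with `w` bounded codes and no
more than `w` units of length, energy, ... were created or lost".
-/

set_option autoImplicit false

namespace Pool.Agent.N662.ISAW

/-- sites of the lattice -/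
abbrev Pt (d : ℕ) := Fin d → ℤ

variable {d : ℕ}

/-- unit vector in direction `i` -/
def ev (i : Fin d) : Pt d := Pi.single i 1

/-- ℓ¹ distance -/
def dist1 (x y : Pt d) : ℕ := ∑ k : Fin d, (x k - y k).natAbs

/-- nearest neighbours -/
def Adj (x y : Pt d) : Prop := dist1 x y = 1

/-- number of (unordered) pairs of neighbours in the finite set `S` -/
def eS (S : Finset (Pt d)) : ℕ :=
  ((S ×ˢ (Finset.univ : Finset (Fin d))).filter (fun p => p.1 + ev p.2 ∈ S)).card

/-- number of pairs of neighbours among the entries of a list -/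
def en (l : List (Pt d)) : ℕ := eS l.toFinset

/-- number of visits to the wall `x k = 0` -/
def vis (k : Fin d) (l : List (Pt d)) : ℕ := l.countP (fun v => decide (v k = 0))

/-- lengths of the jumps -/
def jmp : List (Pt d) → Multiset ℕ
  | [] => 0
  | [_] => 0
  | a :: b :: l => (if dist1 a b ≤ 1 then 0 else {dist1 a b}) + jmp (b :: l)

/-- the last entry is a neighbour of the first one -/
def Closed (l : List (Pt d)) : Prop := ∃ p q, l.head? = some p ∧ l.getLast? = some q ∧ Adj q p

/-- consecutive entries, in one of the two orders -/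
def Nb (l : List (Pt d)) (x y : Pt d) : Prop := [x, y] <:+: l ∨ [y, x] <:+: l

/-- same coordinates except the coordinate `a` -/
def Lat (a : Fin d) (x y : Pt d) : Prop := ∀ k, k ≠ a → x k = y k

/-- ℓ¹ distance of the coordinates different from `a` -/
def ldist (a : Fin d) (x y : Pt d) : ℕ := ∑ k ∈ Finset.univ.erase a, (x k - y k).natAbs

/-- the column of `H` sites `u, u + e, …, u + (H-1) e` -/
def col (a : Fin d) (H : ℕ) (u : Pt d) : List (Pt d) :=
  (List.range H).map (fun i => u + Pi.single a (i : ℤ))

/-- shift by `H` of the sites above level `c` -/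
def sh (a : Fin d) (c : ℤ) (H : ℕ) (v : Pt d) : Pt d :=
  if v a ≤ c then v else v + Pi.single a (H : ℤ)

/-- the sites inserted between consecutive entries `u`, `v` -/
def fill (a : Fin d) (c : ℤ) (H : ℕ) (u v : Pt d) : List (Pt d) :=
  if u a ≤ c ∧ c < v a then col a H (u + ev a)
  else if v a ≤ c ∧ c < u a then (col a H (v + ev a)).reverse
  else []

/-- insertion of an empty slab of `H` layers above the level `c` -/
def slab (a : Fin d) (c : ℤ) (H : ℕ) : List (Pt d) → List (Pt d)
  | [] => []
  | [u] => [sh a c H u]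
  | u :: v :: l => sh a c H u :: (fill a c H u v ++ slab a c H (v :: l))

/-- removal of the slab `c < x a ≤ c + H` -/
def unslab (a : Fin d) (c : ℤ) (H : ℕ) (l : List (Pt d)) : List (Pt d) :=
  (l.filter (fun v => decide (¬ (c < v a ∧ v a ≤ c + H)))).map
    (fun v => if v a ≤ c then v else v - Pi.single a (H : ℤ))

/-- codes of elementary moves -/
abbrev Code (d B : ℕ) := Fin 7 × Fin (B + 1) × Fin (B + 1) × Fin d × Bool

/-- undo an elementary move -/
def undo (a : Fin d) {B : ℕ} (c : Code d B) (l : List (Pt d)) : List (Pt d) :=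
  match c.1.val with
  | 0 => l
  | 1 => l.tail
  | 2 => (l.headD 0 + (if c.2.2.2.2 then ev c.2.2.2.1 else - ev c.2.2.2.1)) :: l
  | 3 => (l.take c.2.1.val).reverse ++ l.drop c.2.1.val
  | 4 => l.rotate c.2.1.val
  | 5 => unslab a (l.headD 0 a + (c.2.1.val : ℤ)) c.2.2.1.val l
  | _ => l.insertIdx c.2.1.val (l.getD c.2.2.1.val 0)

/-- `l'` can be reached from `l` by moves of total weight `w` in which all numbers are at most `B` -/
structure Reach (a : Fin d) (B w : ℕ) (l l' : List (Pt d)) : Prop where
  dec : ∃ cs : List (Code d B), cs.length = w ∧ cs.foldl (fun m c => undo a c m) l' = l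
  len : l'.length ≤ l.length + w
  ene : en l ≤ en l' + 2 * d * w
  box : ∀ b : ℤ, (∀ v ∈ l, ∀ i, |v i| ≤ b) → ∀ v ∈ l', ∀ i, |v i| ≤ b + w
  half : ∀ k, k ≠ a → (∀ v ∈ l, 0 ≤ v k) → ∀ v ∈ l', 0 ≤ v k
  visu : ∀ k, k ≠ a → vis k l' ≤ vis k l + w
  visl : ∀ k, k ≠ a → vis k l ≤ vis k l' + w

/-- invariants during the climb towards the slab of `H` layers above `c`; `q` is the last entry -/
structure Inv (a : Fin d) (c : ℤ) (H : ℕ) (l : List (Pt d)) (q : Pt d) : Prop where
  nd : l.Nodup
  last : l.getLast? = some q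
  full : ∀ v ∈ l, c < v a → v a ≤ c + H → ¬ (q a = c + 1 ∧ Lat a v q) →
    Nb l v (v + ev a) ∧ Nb l v (v - ev a)
  jp : ∀ u v, [u, v] <:+: l → dist1 u v ≠ 1 →
    (u a ≤ c ∧ v a ≤ c) ∨ (c + H < u a ∧ c + H < v a)

/-- the first entry `p` has reached the lowest layer of the slab; `q` is the last entry -/
structure Settled (a : Fin d) (c : ℤ) (H : ℕ) (l : List (Pt d)) (p q : Pt d) : Prop where
  nd : l.Nodup
  head : l.head? = some p
  last : l.getLast? = some q
  hp : p a = c + 1
  ne : ¬ (q a = c + 1 ∧ Lat a p q)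
  full : ∀ v ∈ l, c < v a → v a ≤ c + H → ¬ (q a = c + 1 ∧ Lat a v q) → ¬ Lat a v p →
    Nb l v (v + ev a) ∧ Nb l v (v - ev a)
  typ : (∀ v ∈ l, c < v a → v a ≤ c + H → Lat a v p → v = p) ∨ col a H p <+: l
  jp : ∀ u v, [u, v] <:+: l → dist1 u v ≠ 1 →
    (u a ≤ c ∧ v a ≤ c) ∨ (c + H < u a ∧ c + H < v a)

/-- the situation in which the first entry `p` is moved sideways through the slab to the last
entry `q`, which is in the lowest layer of the slab -/
structure Sweep (a : Fin d) (c : ℤ) (H : ℕ) (l : List (Pt d)) (p q : Pt d) : Prop where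
  nd : l.Nodup
  head : l.head? = some p
  last : l.getLast? = some q
  hq : q a = c + 1
  hp1 : c < p a
  hp2 : p a ≤ c + H
  ne : ¬ Lat a p q
  full : ∀ v ∈ l, c < v a → v a ≤ c + H → ¬ Lat a v q → ldist a v q < ldist a p q →
    Nb l v (v + ev a) ∧ Nb l v (v - ev a)
  typ : (∀ v ∈ l, c < v a → v a ≤ c + H → Lat a v q → v = q) ∨ (col a H q).reverse <:+ l

/-- columns which still may be crossed -/
noncomputable def colsLeft (a : Fin d) (c : ℤ) (l : List (Pt d)) (p q : Pt d) : ℕ :=
  open Classical in
  l.countP (fun v => decide (v a = c + 1 ∧ ¬ Lat a v q ∧ ldist a v q < ldist a p q))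

/-- lists of `N` sites with coordinates at most `b` in absolute value -/
noncomputable def BL (d b N : ℕ) : Finset (List (Pt d)) :=
  (Fintype.piFinset (fun _ : Fin N => Fintype.piFinset
    (fun _ : Fin d => Finset.Icc (-(b : ℤ)) (b : ℤ)))).image List.ofFn

/-- self-avoiding walk -/
def IsW (l : List (Pt d)) : Prop := l.Nodup ∧ List.IsChain Adj l

open Classical in
/-- partition function of walks with `n` steps from the origin (energy = pairs of neighbours) -/
noncomputable def Aw (d : ℕ) (β : ℝ) (n : ℕ) : ℝ :=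
  ∑ l ∈ (BL d n (n + 1)).filter (fun l => l.head? = some 0 ∧ IsW l), Real.exp (β * en l)

open Classical in
/-- partition function of rooted oriented polygons with `n` vertices -/
noncomputable def Qp (d : ℕ) (β : ℝ) (n : ℕ) : ℝ :=
  ∑ l ∈ (BL d n n).filter (fun l => l.head? = some 0 ∧ IsW l ∧ Closed l), Real.exp (β * en l)

open Classical in
/-- polygons below the hyperplane `x i = 0`, with the edge from `0` to `- e_j` -/
noncomputable def Rp (d : ℕ) (β : ℝ) (i j : Fin d) (n : ℕ) : ℝ :=
  ∑ l ∈ (BL d n n).filter (fun l => l.head? = some 0 ∧ l.getLast? = some (- ev j) ∧ IsW l ∧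
    ∀ v ∈ l, v i ≤ 0), Real.exp (β * en l)

end Pool.Agent.N662.ISAW
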