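import Pool.Agent.N662.ISAW.Def

/-!
# Project IW (helper662): statements of the leaves
-/

set_option autoImplicit false

namespace Pool.Agent.N662.ISAW

open Filter Topology

/-- no jump crosses the level `c` -/
def NC {d : ℕ} (a : Fin d) (c : ℤ) (l : List (Pt d)) : Prop :=
  ∀ u v, [u, v] <:+: l → dist1 u v ≠ 1 → (u a ≤ c ↔ v a ≤ c)

/-- number of entries in the layer `x a = c` -/
def lay {d : ℕ} (a : Fin d) (c : ℤ) (l : List (Pt d)) : ℕ := l.countP (fun v => decide (v a = c))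

/-- weight of one round -/
def Wr (M R x : ℕ) : ℕ := 14 * x + 6 * R + 33 * (M + 1) ^ 2

/-- total weight -/
def Wt (M R X r : ℕ) : ℕ :=
  X + (2 * (Wr M R (4 * r + 4 * X) + 1) + X * (Wr M R (2 * X) + 1))

/-! ## energy -/

def S_EN : Prop := ∀ d : ℕ,
  (∀ S T : Finset (Pt d), S ⊆ T → eS S ≤ eS T) ∧
  (∀ (x : Pt d) (S : Finset (Pt d)), eS (insert x S) ≤ eS S + 2 * d) ∧
  (∀ S T : Finset (Pt d), eS S + eS T ≤ eS (S ∪ T) + eS (S ∩ T)) ∧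
  (∀ S : Finset (Pt d), eS S ≤ d * S.card) ∧
  (∀ (S : Finset (Pt d)) (t : Pt d), eS (S.image (fun v => v + t)) = eS S) ∧
  (∀ (S : Finset (Pt d)) (σ : Equiv.Perm (Fin d)), eS (S.image (fun v => v ∘ σ)) = eS S) ∧
  (∀ x y : Pt d, Adj x y ↔ ∃ i, y = x + ev i ∨ y = x - ev i)

/-! ## lists -/

def S_JM : Prop := ∀ d : ℕ,
  (∀ x y : Pt d, dist1 x y = dist1 y x) ∧
  (∀ x y z : Pt d, dist1 x z ≤ dist1 x y + dist1 y z) ∧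
  (∀ x y : Pt d, dist1 x y = 0 ↔ x = y) ∧
  (∀ (a : Fin d) (x y : Pt d), (x a - y a).natAbs ≤ dist1 x y) ∧
  (∀ (a : Fin d) (x y : Pt d), dist1 x y = (x a - y a).natAbs + ldist a x y) ∧
  (∀ l : List (Pt d), jmp l.reverse = jmp l) ∧
  (∀ (l₁ : List (Pt d)) (x y : Pt d) (l₂ : List (Pt d)), jmp (l₁ ++ x :: y :: l₂) =
    jmp (l₁ ++ [x]) + (if dist1 x y ≤ 1 then 0 else {dist1 x y}) + jmp (y :: l₂)) ∧
  (∀ (l₁ : List (Pt d)) (p x y : Pt d) (l₂ : List (Pt d)), l₁.head? = some p →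
    l₁.getLast? = some x → dist1 p y = 1 →
    jmp (l₁.reverse ++ y :: l₂) + (if dist1 x y ≤ 1 then 0 else {dist1 x y}) =
      jmp (l₁ ++ y :: l₂)) ∧
  (∀ l : List (Pt d), l.Nodup → (jmp l = 0 ↔ List.IsChain Adj l))

def S_NB : Prop := ∀ d : ℕ,
  (∀ (l : List (Pt d)) (x y : Pt d), Nb l x y → Nb l y x ∧ Nb l.reverse x y ∧ x ∈ l ∧ y ∈ l) ∧
  (∀ (l₁ l₂ l₃ : List (Pt d)) (x y : Pt d), Nb l₂ x y → Nb (l₁ ++ l₂ ++ l₃) x y) ∧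
  (∀ (l₁ l₂ : List (Pt d)) (x y : Pt d), Nb (l₁ ++ l₂) x y → x ∉ l₁ → y ∉ l₁ → Nb l₂ x y) ∧
  (∀ (l : List (Pt d)) (p y z : Pt d), (p :: y :: l).Nodup → Nb (p :: y :: l) p z → z = y) ∧
  (∀ (l₁ : List (Pt d)) (x y : Pt d) (l₂ : List (Pt d)) (v w : Pt d),
    (l₁ ++ y :: l₂).Nodup → l₁.getLast? = some x → Nb (l₁ ++ y :: l₂) v w →
    ¬ (v = x ∧ w = y) → ¬ (v = y ∧ w = x) → Nb (l₁.reverse ++ y :: l₂) v w) ∧
  (∀ (l₁ l₂ : List (Pt d)) (y z₁ z₂ : Pt d), (l₁ ++ y :: l₂).Nodup →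
    Nb (l₁ ++ y :: l₂) y z₁ → Nb (l₁ ++ y :: l₂) y z₂ → z₁ ≠ z₂ →
    (l₁.getLast? = some z₁ ∧ l₂.head? = some z₂) ∨ (l₁.getLast? = some z₂ ∧ l₂.head? = some z₁)) ∧
  (∀ (l₁ : List (Pt d)) (x y : Pt d) (l₂ : List (Pt d)) (u v : Pt d),
    l₁.getLast? = some x → [u, v] <:+: l₁.reverse ++ y :: l₂ →
    [u, v] <:+: l₁ ++ y :: l₂ ∨ [v, u] <:+: l₁ ++ y :: l₂ ∨ (l₁.head? = some u ∧ v = y))

/-! ## moves -/

def S_RE : Prop := ∀ (d : ℕ) (a : Fin d) (B : ℕ),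
  (∀ l, Reach a B 0 l l) ∧
  (∀ w₁ w₂ l l' l'', Reach a B w₁ l l' → Reach a B w₂ l' l'' → Reach a B (w₁ + w₂) l l'') ∧
  (∀ w w' l l', w ≤ w' → Reach a B w l l' → Reach a B w' l l') ∧
  (∀ y l, (∃ v ∈ l, dist1 y v ≤ 1) → (∀ k, k ≠ a → ∃ v ∈ l, v k ≤ y k) →
    Reach a B 1 l (y :: l)) ∧
  (∀ x y l, Adj x y → Reach a B 1 (x :: y :: l) (y :: l)) ∧
  (∀ l₁ l₂, l₁.length ≤ B → Reach a B 1 (l₁ ++ l₂) (l₁.reverse ++ l₂)) ∧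
  (∀ l, l.length ≤ B → Reach a B 1 l l.reverse) ∧
  (∀ l₁ l₂, l₂.length ≤ B → Reach a B 1 (l₁ ++ l₂) (l₂ ++ l₁)) ∧
  (∀ l₁ x l₂, x ∈ l₁ ++ l₂ → (l₁ ++ l₂).length ≤ B → Reach a B 1 (l₁ ++ x :: l₂) (l₁ ++ l₂))

/-! ## slab -/

def S_SLA : Prop := ∀ (d : ℕ) (a : Fin d) (c : ℤ) (H : ℕ) (l : List (Pt d)), NC a c l →
  unslab a c H (slab a c H l) = l ∧ jmp (slab a c H l) = jmp l ∧
  (∀ p, l.head? = some p → (slab a c H l).head? = some (sh a c H p)) ∧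
  (∀ q, l.getLast? = some q → (slab a c H l).getLast? = some (sh a c H q))

def S_SLB : Prop := ∀ (d : ℕ) (a : Fin d) (c : ℤ) (H : ℕ) (l : List (Pt d)), NC a c l → l.Nodup →
  (∀ x, x ∈ slab a c H l ↔ (∃ u ∈ l, x = sh a c H u) ∨
    ∃ u, u a = c ∧ Nb l u (u + ev a) ∧ x ∈ col a H (u + ev a)) ∧
  (slab a c H l).Nodup ∧
  (∀ h : ℤ, c < h → h ≤ c + H → lay a h (slab a c H l) ≤ lay a c l) ∧
  (slab a c H l).length ≤ l.length + H * lay a c l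

def S_SLC : Prop := ∀ (d : ℕ) (a : Fin d) (c : ℤ) (H : ℕ) (l : List (Pt d)), NC a c l →
  1 ≤ H → l.Nodup →
  (∀ v ∈ slab a c H l, c < v a → v a ≤ c + H →
    Nb (slab a c H l) v (v + ev a) ∧ Nb (slab a c H l) v (v - ev a)) ∧
  (∀ u v, [u, v] <:+: slab a c H l → dist1 u v ≠ 1 →
    (u a ≤ c ∧ v a ≤ c) ∨ (c + H < u a ∧ c + H < v a))

def S_SLD : Prop := ∀ (d : ℕ) (a : Fin d) (c : ℤ) (H B M : ℕ) (l : List (Pt d)) (p : Pt d),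
  NC a c l → 1 ≤ H → l.Nodup → l.head? = some p → p a ≤ c → c ≤ p a + B → H ≤ B →
  lay a c l ≤ M → Reach a B ((M + 1) * H) l (slab a c H l)

def S_PG : Prop := ∀ (d : ℕ) (a : Fin d) (l : List (Pt d)) (c₀ : ℤ) (R M : ℕ),
  l.length ≤ (M + 1) * R →
  ∃ c : ℤ, c₀ ≤ c ∧ c ≤ c₀ + R + (jmp l).sum ∧ lay a c l ≤ M ∧ NC a c l

/-! ## climbing -/

def S_CS : Prop := ∀ (d : ℕ) (a : Fin d) (B : ℕ) (c : ℤ) (H : ℕ) (l : List (Pt d)) (p q : Pt d),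
  1 ≤ H → Inv a c H l q → l.head? = some p → p a ≤ c → q a ≤ c + 1 → ¬ Adj q p → l.length ≤ B →
  ∃ l' p', Reach a B 1 l l' ∧ l'.head? = some p' ∧ l'.getLast? = some q ∧ l'.Nodup ∧
    jmp l' ≤ jmp l ∧ (∀ v ∈ l', c < v a → v ∈ l ∨ v = p') ∧
    (∀ s, s <:+ l → (∀ x ∈ s, c < x a) → s <:+ l') ∧
    (c + 1 - p' a) + (jmp l').sum + 1 ≤ (c + 1 - p a) + (jmp l).sum ∧
    dist1 p p' + (jmp l').sum ≤ 2 + (jmp l).sum ∧
    ((p' a ≤ c ∧ Inv a c H l' q) ∨ Settled a c H l' p' q)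

def S_CL : Prop := ∀ (d : ℕ) (a : Fin d) (B : ℕ) (c : ℤ) (H : ℕ) (l : List (Pt d)) (p q : Pt d)
  (Φ : ℕ), 1 ≤ H → Inv a c H l q → l.head? = some p → p a ≤ c → q a ≤ c + 1 →
  (c + 1 - p a) + (jmp l).sum ≤ Φ → l.length + Φ ≤ B →
  ∃ l' p', Reach a B Φ l l' ∧ l'.head? = some p' ∧ l'.getLast? = some q ∧ l'.Nodup ∧
    jmp l' ≤ jmp l ∧ (∀ v ∈ l', c < v a → v ∈ l ∨ v = p') ∧
    (∀ s, s <:+ l → (∀ x ∈ s, c < x a) → s <:+ l') ∧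
    dist1 p p' ≤ 2 * Φ + (jmp l).sum ∧
    (Adj q p' ∨ Settled a c H l' p' q)

def S_RA : Prop := ∀ (d : ℕ) (a : Fin d) (B : ℕ) (c : ℤ) (H M : ℕ) (l : List (Pt d)) (p q : Pt d),
  Settled a c H l p q → q a = c + 1 → M + 1 ≤ H →
  ((∀ v ∈ l, c < v a → v a ≤ c + H → Lat a v q → v = q) ∨ (col a H q).reverse <:+ l) →
  l.length + M ≤ B →
  ∃ l', Reach a B M l l' ∧ jmp l' = jmp l ∧ Sweep a c H l' (p + Pi.single a (M : ℤ)) q ∧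
    lay a (c + 1) l' ≤ lay a (c + 1) l

/-! ## sweeping -/

def S_FI : Prop := ∀ (d : ℕ) (a : Fin d) (B : ℕ) (c : ℤ) (H : ℕ) (l : List (Pt d)) (p q : Pt d),
  Sweep a c H l p q → ldist a p q = 1 → l.length + 3 * H ≤ B →
  ∃ l', Reach a B (3 * H) l l' ∧ l'.Nodup ∧ Closed l' ∧ jmp l' = jmp l

def S_SW : Prop := ∀ (d : ℕ) (a : Fin d) (B : ℕ) (c : ℤ) (H : ℕ) (l : List (Pt d)) (p q : Pt d),
  Sweep a c H l p q → c + 1 + colsLeft a c l p q ≤ p a → p a + colsLeft a c l p q ≤ c + H →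
  l.length + (ldist a p q + 3 * H) ≤ B →
  ∃ l', Reach a B (ldist a p q + 3 * H) l l' ∧ l'.Nodup ∧ Closed l' ∧ jmp l' = jmp l

/-! ## closing -/

def S_RO : Prop := ∀ (d : ℕ) (a : Fin d) (B M R x : ℕ) (l : List (Pt d)) (p q : Pt d),
  l.Nodup → l.head? = some p → l.getLast? = some q → l.length ≤ (M + 1) * R →
  dist1 p q + (jmp l).sum ≤ x → l.length + Wr M R x ≤ B →
  ∃ l', Reach a B (Wr M R x) l l' ∧ l'.Nodup ∧ Closed l' ∧ jmp l' ≤ jmp l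

def S_CA : Prop := ∀ (d : ℕ) (a : Fin d) (B M R L J : ℕ) (G : Multiset ℕ) (l : List (Pt d))
  (p q : Pt d), l.Nodup → l.head? = some p → l.getLast? = some q →
  dist1 p q ≤ L → J ≤ L → jmp l ≤ J ::ₘ G →
  l.length + (2 * (Wr M R (2 * L + G.sum) + 1) + Multiset.card G * (Wr M R G.sum + 1)) ≤ B →
  l.length + (2 * (Wr M R (2 * L + G.sum) + 1) + Multiset.card G * (Wr M R G.sum + 1))
    ≤ (M + 1) * R →
  ∃ l', Reach a B (2 * (Wr M R (2 * L + G.sum) + 1) + Multiset.card G * (Wr M R G.sum + 1)) l l' ∧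
    l'.Nodup ∧ Closed l' ∧ jmp l' = 0

/-! ## the initial configuration -/

open Classical in
def S_FL : Prop := ∀ (d : ℕ) (a : Fin d) (B r k : ℕ) (u w : List (Pt d)),
  IsW u → IsW w → u ≠ [] → k = w.countP (fun v => decide (v ∈ u)) → k < w.length →
  (∀ x y, u.getLast? = some x → w.head? = some y → dist1 x y ≤ r) →
  (∀ x y, w.getLast? = some x → u.head? = some y → dist1 x y ≤ r) →
  u.length + w.length ≤ B →
  ∃ l p q J G, Reach a B k (u ++ w) l ∧ l.Nodup ∧ l.head? = some p ∧ l.getLast? = some q ∧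
    dist1 p q ≤ r + k ∧ J ≤ r + k ∧ jmp l ≤ J ::ₘ G ∧ G.sum ≤ 2 * k ∧ Multiset.card G ≤ k

def S_IS : Prop := ∀ (d : ℕ) (i j : Fin d), i ≠ j → ∀ (S T : Finset (Pt d)) (N r : ℕ),
  S.card ≤ N → T.card ≤ N → ∃ t₁ t₂ : ℕ, t₁ ≤ r ∧ t₂ ≤ r ∧
    (r + 1) ^ 2 * (S ∩ T.image (fun v => v + (Pi.single i (t₁ : ℤ) + Pi.single j (t₂ : ℤ)))).card
      ≤ N ^ 2

/-- closing of a pair: everything together -/
def S_PA : Prop := ∀ (d : ℕ) (a i j : Fin d), i ≠ j → ∀ (B M R n r X : ℕ) (u v : List (Pt d)),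
  IsW u → IsW v → u.length = n + 1 → v.length = n + 1 → u.head? = some 0 → v.head? = some 0 →
  u.getLast? = v.getLast? → X = (n + 1) ^ 2 / (r + 1) ^ 2 → X ≤ n →
  2 * (n + 1) + Wt M R X r ≤ B → 2 * (n + 1) + Wt M R X r ≤ (M + 1) * R →
  ∃ t₁ t₂ : ℕ, t₁ ≤ r ∧ t₂ ≤ r ∧
    en u + en v ≤ en (u ++ (v.map
      (fun x => x + (Pi.single i (t₁ : ℤ) + Pi.single j (t₂ : ℤ)))).reverse) + d * X ∧
    ∃ l', Reach a B (Wt M R X r) (u ++ (v.map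
      (fun x => x + (Pi.single i (t₁ : ℤ) + Pi.single j (t₂ : ℤ)))).reverse) l' ∧
      l'.Nodup ∧ Closed l' ∧ jmp l' = 0

/-! ## counting -/

def S_CT : Prop := ∀ (d : ℕ) (a : Fin d) (B w : ℕ) (W : List (Pt d) → ℝ) (C : ℝ)
  (T P : Finset (List (Pt d))), (∀ l, 0 ≤ W l) → 0 ≤ C →
  (∀ l ∈ T, ∃ l' ∈ P, Reach a B w l l' ∧ W l ≤ C * W l') →
  ∑ l ∈ T, W l ≤ (14 * (d : ℝ) * ((B : ℝ) + 1) ^ 2) ^ w * C * ∑ l ∈ P, W l

open Classical in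
def S_BX : Prop := ∀ (d : ℕ) (β : ℝ) (b N : ℕ),
  ∑ l ∈ (BL d b N).filter (fun l => IsW l ∧ Closed l), Real.exp (β * en l)
    ≤ (2 * (b : ℝ) + 1) ^ d * Qp d β N

def S_MI : Prop := ∀ (d : ℕ) (β : ℝ), 2 ≤ d → 0 ≤ β → ∀ B M R n r X w : ℕ,
  X = (n + 1) ^ 2 / (r + 1) ^ 2 → X ≤ n → w = Wt M R X r →
  2 * (n + 1) + w ≤ B → 2 * (n + 1) + w ≤ (M + 1) * R →
  (Aw d β n) ^ 2 ≤ (2 * (n : ℝ) + 1) ^ d * ((r : ℝ) + 1) ^ 2 *
    (14 * (d : ℝ) * ((B : ℝ) + 1) ^ 2) ^ w * Real.exp (β * (d * X + 2 * d * w)) *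
    (2 * ((n : ℝ) + r + w) + 1) ^ d * ∑ N ∈ Finset.range (2 * n + 3 + w), Qp d β N

def S_PAR : Prop := ∀ (d : ℕ) (β : ℝ), 2 ≤ d → 0 ≤ β → ∀ ε : ℝ, 0 < ε →
  ∀ᶠ n : ℕ in atTop, ∃ w : ℕ, (w : ℝ) ≤ ε * n ∧
    (Aw d β n) ^ 2 ≤ Real.exp (ε * n) * ∑ N ∈ Finset.range (2 * n + 3 + w), Qp d β N

/-! ## polygons -/

def S_EVEN : Prop := ∀ (d : ℕ) (l : List (Pt d)), IsW l → Closed l → Even l.length

def S_RR : Prop := ∀ (d : ℕ) (β : ℝ) (i j : Fin d), 0 ≤ β → i ≠ j → ∀ n m : ℕ, 3 ≤ m →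
  Rp d β i j n * Rp d β i j m ≤ 2 * (d : ℝ) * m * Rp d β i j (n + m)

def S_QR : Prop := ∀ (d : ℕ) (β : ℝ) (i j : Fin d), i ≠ j → ∀ n : ℕ, 3 ≤ n →
  Qp d β n ≤ 2 * (d : ℝ) * n * Rp d β i j n

def S_R2 : Prop := ∀ (d : ℕ) (β : ℝ) (i j : Fin d), 0 ≤ β → i ≠ j →
  1 ≤ Rp d β i j 2 ∧ ∀ n : ℕ, Rp d β i j n ≤ Rp d β i j (n + 2)

def S_BD : Prop := ∀ (d : ℕ) (β : ℝ), 0 ≤ β → (∀ (i j : Fin d) (n : ℕ), Rp d β i j n ≤ Qp d β n) ∧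
  ∀ n : ℕ, Qp d β n ≤ (2 * (d : ℝ)) ^ n * Real.exp (β * d * n)

def S_LD : Prop := ∀ (u g : ℕ → ℝ) (K : ℝ), (∀ n, 1 ≤ n → 0 ≤ u n) → (∀ n, u n ≤ K * n) →
  Tendsto (fun m : ℕ => g m / m) atTop (𝓝 0) →
  (∀ n m, 1 ≤ n → 2 ≤ m → u n + u m - g m ≤ u (n + m)) →
  ∃ L : ℝ, Tendsto (fun n : ℕ => u n / n) atTop (𝓝 L)

def S_PL : Prop := ∀ (d : ℕ) (β : ℝ), 2 ≤ d → 0 ≤ β → ∃ L : ℝ, 0 ≤ L ∧
  Tendsto (fun m : ℕ => Real.log (Qp d β (2 * m)) / (2 * m : ℝ)) atTop (𝓝 L)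

def S_LO : Prop := ∀ (d : ℕ) (β : ℝ), 0 ≤ β → ∀ n : ℕ, Qp d β (n + 1) ≤ Aw d β n ∧
  Aw d β (n + 1) ≤ 2 * (d : ℝ) * Real.exp (2 * d * β) * Aw d β n

/-- the main theorem in list form -/
def S_MAIN : Prop := ∀ (d : ℕ) (β : ℝ), 2 ≤ d → 0 ≤ β → ∃ L : ℝ,
  Tendsto (fun m : ℕ => Real.log (Qp d β (2 * m)) / (2 * m : ℝ)) atTop (𝓝 L) ∧
  Tendsto (fun n : ℕ => Real.log (Aw d β n) / (n : ℝ)) atTop (𝓝 L)

/-! ## translation of the frozen statements -/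

open Classical in
def S_E1 : Prop := ∀ (d n : ℕ) (β : ℝ),
  (∑ w ∈ (Fintype.piFinset
      (fun _ : Fin (n + 1) =>
        Fintype.piFinset (fun _ : Fin d => Finset.Icc (-(n : ℤ)) (n : ℤ)))).filter
      (fun w : Fin (n + 1) → Fin d → ℤ =>
        w 0 = 0 ∧
        (∀ i j : Fin (n + 1), w i = w j → i = j) ∧
        (∀ i : Fin n, ∑ k : Fin d, |w i.succ k - w i.castSucc k| = 1)),
    Real.exp (β * ((((Finset.univ : Finset (Fin (n + 1) × Fin (n + 1))).filter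
      (fun p : Fin (n + 1) × Fin (n + 1) =>
        p.1.val + 1 < p.2.val ∧
        ∑ k : Fin d, |w p.1 k - w p.2 k| = 1)).card : ℕ) : ℝ)))
  = Real.exp (-(β * n)) * Aw d β n

open Classical in
def S_E2 : Prop := ∀ (d : ℕ) (β : ℝ) (P : (n : ℕ) → (Fin n → Fin d × Bool) → ℕ → (Fin d → ℤ)),
    (∀ (n : ℕ) (s : Fin n → Fin d × Bool) (t : ℕ),
        P n s t = ∑ j ∈ Finset.univ.filter (fun j : Fin n => j.val < t),
          (fun i : Fin d => if i = (s j).1 then (if (s j).2 then (1 : ℤ) else -1) else 0)) →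
    ∀ n : ℕ, (∑ s ∈ Finset.univ.filter (fun s : Fin n → Fin d × Bool =>
              ∀ a ∈ Finset.range (n + 1), ∀ b ∈ Finset.range (n + 1),
                P n s a = P n s b → a = b),
            Real.exp (β * (((Finset.range (n + 1) ×ˢ Finset.range (n + 1)).filter
              (fun p : ℕ × ℕ => p.1 + 1 < p.2 ∧
                ∑ i : Fin d, |P n s p.1 i - P n s p.2 i| = 1)).card : ℝ)))
      = Real.exp (-(β * n)) * Aw d β n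

open Classical in
def S_E3 : Prop := ∀ (d : ℕ) (β : ℝ) (P : (n : ℕ) → (Fin n → Fin d × Bool) → ℕ → (Fin d → ℤ)),
    (∀ (n : ℕ) (s : Fin n → Fin d × Bool) (t : ℕ),
        P n s t = ∑ j ∈ Finset.univ.filter (fun j : Fin n => j.val < t),
          (fun i : Fin d => if i = (s j).1 then (if (s j).2 then (1 : ℤ) else -1) else 0)) →
    ∀ m : ℕ, 2 ≤ m → (∑ s ∈ Finset.univ.filter (fun s : Fin (2 * m) → Fin d × Bool =>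
              P (2 * m) s (2 * m) = 0 ∧
              ∀ a ∈ Finset.range (2 * m), ∀ b ∈ Finset.range (2 * m),
                P (2 * m) s a = P (2 * m) s b → a = b),
            Real.exp (β * (((Finset.range (2 * m) ×ˢ Finset.range (2 * m)).filter
              (fun p : ℕ × ℕ => p.1 + 1 < p.2 ∧ ¬ (p.1 = 0 ∧ p.2 + 1 = 2 * m) ∧
                ∑ i : Fin d, |P (2 * m) s p.1 i - P (2 * m) s p.2 i| = 1)).card : ℝ)))
      = Real.exp (-(β * (2 * m))) * Qp d β (2 * m)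

/-- pairs of neighbours = edges + contacts -/
def S_CO : Prop := ∀ (d N : ℕ) (w : ℕ → Pt d),
  (∀ i < N, ∀ j < N, w i = w j → i = j) → (∀ i, i + 1 < N → Adj (w i) (w (i + 1))) →
  en ((List.range N).map w) = (N - 1) + (((Finset.range N ×ˢ Finset.range N)).filter
    (fun p : ℕ × ℕ => p.1 + 1 < p.2 ∧ ∑ k : Fin d, |w p.1 k - w p.2 k| = 1)).card

end Pool.Agent.N662.ISAW
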